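import Pool.Agent.H24.GG.Br2

/-!
# Theorem (G), MP_c59857_nt: from the finite form to the Furstenberg systems, for any bounded
sequence
-/

set_option autoImplicit false

open MeasureTheory ProbabilityTheory Filter Topology Finset
open scoped ENNReal

namespace Pool.Agent.H24.GG

open Pool.Agent.H89.MT (I1 X pt lavg QuasiGeneric z1)
open Pool.Agent.H83.W (S S_cont qg_mp)
open Pool.Agent.H6.N4D (ee norm_ee ee_add Lio)
open Pool.Agent.H93.EB (M cr lg Base)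
open Pool.Agent.H24.EG

/-- the uniform finite form of theorem (G) for the sequence `f` -/
def GGf (f : ℕ → ℂ) : Prop := ∀ R : ℕ → ℕ, ∃ K : ℕ, ∀ H X : ℕ, K ≤ H → H ^ K ≤ X →
  ∃ j : ℕ, 1 ≤ j ∧ j ≤ K ∧
    ∀ (b : ℕ → ℕ → ℂ) (β : ℕ → ℕ → ℝ), (∀ n r, ‖b n r‖ ≤ 1) →
      1 / (j : ℝ) * Real.log X < ∑ n ∈ Icc 1 X, 1 / (n : ℝ) * ((∑ h ∈ Icc 1 H,
        ‖f (n + h) - ∑ r ∈ range (R j),
          b n r * Complex.exp (2 * Real.pi * Complex.I * (β n r * h))‖ ^ 2) / H)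

/-- one window -/
theorem win_eq' (f : ℕ → ℂ) (lam : ℕ → ℝ) (hf : ∀ n, 0 < n → (lam n : ℂ) = f n) (R H n : ℕ)
    (b : ℕ → ℂ) (β : ℕ → ℝ) (hn : 1 ≤ n) :
    ∑ m ∈ Ioc n (n + H), ‖(lam m : ℂ) - ∑ r ∈ range R, b r * ee (β r * m)‖ ^ 2 =
      ∑ h ∈ Icc 1 H, ‖f (n + h) - ∑ r ∈ range R,
          (b r * ee (β r * n)) * Complex.exp (2 * Real.pi * Complex.I * (β r * h))‖ ^ 2 := by
  refine Finset.sum_nbij' (fun m => m - n) (fun m => n + m) ?_ ?_ ?_ ?_ ?_
  · intro m hm; rw [Finset.mem_Ioc] at hm; rw [Finset.mem_Icc]; omega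
  · intro m hm; rw [Finset.mem_Icc] at hm; rw [Finset.mem_Ioc]; omega
  · intro m hm; rw [Finset.mem_Ioc] at hm; show n + (m - n) = m; omega
  · intro m _; show n + m - n = m; omega
  · intro m hm
    rw [Finset.mem_Ioc] at hm
    obtain ⟨k, rfl⟩ : ∃ k, m = n + k := ⟨m - n, by omega⟩
    have hk : n + k - n = k := by omega
    have h5 : ∀ r, b r * ee (β r * ((n + k : ℕ) : ℝ)) =
        (b r * ee (β r * n)) * Complex.exp (2 * Real.pi * Complex.I * (β r * k)) := by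
      intro r
      have h6 : β r * ((n + k : ℕ) : ℝ) = β r * n + β r * k := by
        push_cast
        ring
      rw [h6, ee_add, ee_exp (β r * k)]
      push_cast
      ring
    rw [hk, hf (n + k) (by omega), Finset.sum_congr rfl fun r _ => h5 r]

/-- the finite form excludes a base -/
theorem not_base (f : ℕ → ℂ) (lam : ℕ → ℝ) (hf : ∀ n, 0 < n → (lam n : ℂ) = f n) (hG : GGf f) :
    ∀ R : ℕ → ℕ, ∃ K X₀ : ℕ, ∀ X : ℕ, X₀ ≤ X →
      ∃ j H : ℕ, 1 ≤ j ∧ j ≤ K ∧ 1 ≤ H ∧ H ≤ K ∧ ¬ Base lam (R j) H (1 / (j : ℝ)) X := by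
  intro R
  obtain ⟨K, hK⟩ := hG R
  refine ⟨K + 1, (K + 1) ^ K, fun X hX => ?_⟩
  obtain ⟨j, hj1, hj2, h⟩ := hK (K + 1) X (by omega) hX
  refine ⟨j, K + 1, hj1, by omega, by omega, le_rfl, ?_⟩
  rintro ⟨b, β, hb, hB⟩
  have h1 := h (fun n r => b n r * ee (β n r * n)) β (fun n r => by
    rw [norm_mul, norm_ee, mul_one]
    exact hb n r)
  refine absurd h1 (not_lt.2 (le_trans (le_of_eq ?_) hB))
  unfold lg
  refine Finset.sum_congr rfl fun n hn => ?_
  beta_reduce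
  rw [win_eq' f lam hf (R j) (K + 1) n (b n) (β n) (Finset.mem_Icc.1 hn).1, one_div,
    inv_mul_eq_div]

/-- the theorem on Furstenberg systems, for any sequence -/
theorem main_f (lam : ℕ → ℝ) (hG : ∀ R : ℕ → ℕ, ∃ K X₀ : ℕ, ∀ X : ℕ, X₀ ≤ X →
      ∃ j H : ℕ, 1 ≤ j ∧ j ≤ K ∧ 1 ≤ H ∧ H ≤ K ∧ ¬ Base lam (R j) H (1 / (j : ℝ)) X)
    (u : ℕ → I1) (hu : ∀ n, 0 < n → lam n = (u n : ℝ))
    (κ : Measure X) [IsProbabilityMeasure κ] (hκ : QuasiGeneric u κ) :
    ¬ ∀ᵐ x ∂κ, ∀ e : ℝ, 0 < e → ∃ m, Appr (comp κ x) m e := by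
  intro hA
  have hS := qg_mp hκ
  -- the rate
  have hR : ∀ j : ℕ, ∃ m : ℕ, ∀ H : ℕ, 0 < H → ∫ x, DX m H x ∂κ ≤ 2 * (1 / (8 * (j + 1 : ℝ))) := by
    intro j
    set e : ℝ := 1 / (8 * (j + 1 : ℝ)) with he
    have he0 : 0 < e := by positivity
    have hmono : Monotone fun m : ℕ => {x | Appr (comp κ x) m e} := fun m m' h x hx =>
      appr_mono h hx
    have hU : κ (⋃ m : ℕ, {x | Appr (comp κ x) m e}) = 1 := by
      have : (⋃ m : ℕ, {x | Appr (comp κ x) m e}) =ᵐ[κ] Set.univ := by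
        rw [ae_eq_univ]
        refine measure_mono_null ?_ (ae_iff.1 hA)
        intro x hx hx2
        apply hx
        obtain ⟨m, hm⟩ := hx2 e he0
        exact Set.mem_iUnion.2 ⟨m, hm⟩
      rw [measure_congr this, measure_univ]
    have hT := tendsto_measure_iUnion_atTop (μ := κ) hmono
    rw [hU] at hT
    have hlt : (1 : ℝ≥0∞) - ENNReal.ofReal e < 1 :=
      ENNReal.sub_lt_self ENNReal.one_ne_top one_ne_zero (by
        rw [Ne, ENNReal.ofReal_eq_zero, not_le]; exact he0)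
    obtain ⟨m, hm⟩ := (hT.eventually_const_lt hlt).exists
    exact ⟨m, fun H hH => int_DX_comp hS he0 hm.le hH⟩
  choose R hR using hR
  obtain ⟨K, X₀, hK⟩ := hG fun j => R (j - 1)
  obtain ⟨N, hN, hF⟩ := hκ.2
  -- the windows
  have hlog : Tendsto (fun k => Real.log (N k)) atTop atTop :=
    Real.tendsto_log_atTop.comp (tendsto_natCast_atTop_atTop.comp hN)
  have hwin : ∀ j H : ℕ, 0 < H → ∀ᶠ k in atTop,
      Base lam (R j) H (1 / ((j : ℝ) + 1)) (N k) := by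
    intro j H hH
    have h1 := hF ⟨DX (R j) H, DX_cont (R j) H⟩
    simp only [ContinuousMap.coe_mk] at h1
    have h2 : ∫ x, DX (R j) H x ∂κ < 1 / (2 * ((j : ℝ) + 1)) := by
      refine lt_of_le_of_lt (hR j H hH) ?_
      have : 0 < 1 / ((j : ℝ) + 1) := by positivity
      have h3 : 2 * (1 / (8 * ((j : ℝ) + 1))) = 1 / 4 * (1 / ((j : ℝ) + 1)) := by
        field_simp; norm_num
      have h4 : 1 / (2 * ((j : ℝ) + 1)) = 1 / 2 * (1 / ((j : ℝ) + 1)) := by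
        field_simp
      rw [h3, h4]
      linarith
    filter_upwards [h1.eventually_lt_const h2, hlog.eventually_gt_atTop 0,
      hN.eventually_ge_atTop 3] with k hk hk0 hk3
    have h5 : lg (N k) (fun n => DX (R j) H (pt u n)) ≤
        1 / (2 * ((j : ℝ) + 1)) * Real.log (N k) := by
      unfold lavg at hk
      rw [div_lt_iff₀ hk0] at hk
      exact hk.le
    have h6 := base_of lam hu (R j) H (N k) hk3 (e' := 1 / (4 * ((j : ℝ) + 1)))
      (by positivity) h5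
    have h7 : 1 / (2 * ((j : ℝ) + 1)) + 2 * (1 / (4 * ((j : ℝ) + 1))) = 1 / ((j : ℝ) + 1) := by
      field_simp; norm_num
    rwa [h7] at h6
  have hall : ∀ᶠ k in atTop, ∀ j ∈ range K, ∀ H ∈ Ioc 0 K,
      Base lam (R j) H (1 / ((j : ℝ) + 1)) (N k) := by
    rw [Filter.eventually_all_finset]
    intro j _
    rw [Filter.eventually_all_finset]
    intro H hH
    exact hwin j H (Finset.mem_Ioc.1 hH).1
  obtain ⟨k, hk, hk2⟩ := (hall.and (hN.eventually_ge_atTop X₀)).exists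
  obtain ⟨j, H, hj1, hjK, hH1, hHK, hn⟩ := hK (N k) hk2
  apply hn
  have := hk (j - 1) (Finset.mem_range.2 (by omega)) H (Finset.mem_Ioc.2 ⟨by omega, hHK⟩)
  have h8 : ((j - 1 : ℕ) : ℝ) + 1 = j := by
    rw [Nat.cast_sub hj1]; push_cast; ring
  rwa [h8] at this

/-- **The finite form gives the ergodic form**, for any sequence with values in `[-1, 1]` -/
theorem fur_of (f : ℕ → ℂ) (hG : GGf f) (u : ℕ → I1) (hu : ∀ n, 0 < n → ((u n : ℝ) : ℂ) = f n)
    (κ : Measure X) [IsProbabilityMeasure κ] (hκ : QuasiGeneric u κ) :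
    ¬ ∀ᵐ x ∂κ, Span0 (comp κ x) := by
  intro hA
  refine main_f (fun n => (u n : ℝ)) (not_base f _ hu hG) u (fun _ _ => rfl) κ hκ ?_
  filter_upwards [hA] with x hx e he
  have hP : IsProbabilityMeasure (comp κ x) := by unfold comp; infer_instance
  obtain ⟨k, θ, F, h1, h2⟩ := hx (e / 2) (by linarith)
  have h3 : ∀ r, ∀ᵐ y ∂comp κ x, F r (S y) = ee (θ r) * F r y := by
    intro r
    filter_upwards [(h1 r).2.2] with y hy
    rw [hy, ee_exp]
  obtain ⟨m, hm⟩ := appr_of_sq (show 0 < e / 2 by linarith) F θ (fun r => (h1 r).1)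
    (fun r => (h1 r).2.1) h3 h2
  refine ⟨m, ?_⟩
  rwa [mul_div_cancel₀ e two_ne_zero] at hm

/-- Liouville's function -/
theorem ggf_lio (h : Pool.Agent.H93.GS.T_GFU) :
    GGf fun n => (-1 : ℂ) ^ ArithmeticFunction.cardFactors n := plain_fiu h

end Pool.Agent.H24.GG
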