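import Pool.Agent.H24.GG.Gen
import Pool.Agent.H72.GM2.Chi
import Pool.Agent.H83.TR.G9T

/-!
# Theorems (G) and (H), MP_c59857_nt, in one statement
-/

set_option autoImplicit false

open Finset

namespace Pool.Agent.H24.GG

/-- the value of the Möbius function times a character on squarefree numbers -/
theorem prod_chi {q : ℕ} (χ : DirichletCharacter ℂ q) (f : ℕ → ℂ)
    (hs : ∀ n, Squarefree n → f n = χ n * ArithmeticFunction.moebius n) (n : ℕ)
    (hn : Squarefree n) : f n = ∏ p ∈ n.primeFactors, f p := by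
  rw [hs n hn]
  have h4 : ∀ p ∈ n.primeFactors, f p = χ (p : ZMod q) * -1 := by
    intro p hp
    have hp' := Nat.prime_of_mem_primeFactors hp
    rw [hs p hp'.squarefree, ArithmeticFunction.moebius_apply_prime hp']
    push_cast
    rfl
  rw [Finset.prod_congr rfl h4, Finset.prod_mul_distrib, Finset.prod_const, ← map_prod]
  congr 1
  · congr 1
    conv_lhs => rw [← Nat.prod_primeFactors_of_squarefree hn]
    push_cast
    rfl
  · rw [ArithmeticFunction.moebius_apply_of_squarefree hn, ArithmeticFunction.cardFactors_apply]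
    push_cast
    congr 1
    rw [Nat.primeFactors, List.card_toFinset, List.dedup_eq_self.2]
    exact (Nat.squarefree_iff_nodup_primeFactorsList hn.ne_zero).1 hn

/-- **Theorems (G) and (H) in one statement.** -/
theorem both (hG : Pool.Agent.H93.GS.T_GFU) (hH : Pool.Agent.H6.G9.T_G9T) (q : ℕ) [NeZero q] :
    ∃ J : ℕ → ℕ, ∀ (R : ℕ → ℕ) (T : ℕ), ∃ K : ℕ, ∀ H N : ℕ, K ≤ H → H ^ K ≤ N →
      ∀ (χ : DirichletCharacter ℂ q) (f : ℕ → ℂ), (∀ n, ‖f n‖ ≤ 1) →
        (∀ n, Squarefree n → f n = χ n * ArithmeticFunction.moebius n) →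
        ∃ j : ℕ, 1 ≤ j ∧ j ≤ K ∧ (Real.log^[T] N ≤ H → j ≤ J T) ∧
          ∀ (b : ℕ → ℕ → ℂ) (β : ℕ → ℕ → ℝ), (∀ n r, ‖b n r‖ ≤ 1) →
            1 / (j : ℝ) * Real.log N < ∑ n ∈ Icc 1 N, 1 / (n : ℝ) * ((∑ h ∈ Icc 1 H,
              ‖f (n + h) - ∑ r ∈ range (R j),
                b n r * Complex.exp (2 * Real.pi * Complex.I * (β n r * h))‖ ^ 2) / H) := by
  have hT := Pool.Agent.H83.TR.g9TU hH q 0 (fun _ => 0) (by simp)
  choose c K₀ hc hT using hT
  refine ⟨fun T => ⌈1 / c T⌉₊, fun R T => ?_⟩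
  obtain ⟨K₁, h1⟩ := Pool.Agent.H72.GM2.plain_gmc hG q R
  obtain ⟨H₀, h2⟩ := hT T (R ⌈1 / c T⌉₊)
  have hJ : 1 ≤ ⌈1 / c T⌉₊ := Nat.one_le_ceil_iff.2 (by have := hc T; positivity)
  refine ⟨K₁ + K₀ T + H₀ + ⌈1 / c T⌉₊, fun H N hH hN χ f hf hs => ?_⟩
  have hH1 : 1 ≤ H := by omega
  by_cases hl : Real.log^[T] (N : ℝ) ≤ H
  · refine ⟨⌈1 / c T⌉₊, hJ, by omega, fun _ => le_rfl, fun b β hb => ?_⟩
    have h3 := h2 H N (by omega) hl ((Nat.pow_le_pow_right hH1 (by omega)).trans hN) χ 0 f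
      (by simp) hf (prod_chi χ f hs) (fun p hp => ?_) b β hb
    · refine lt_of_le_of_lt ?_ h3
      have hN1 : (1 : ℝ) ≤ N := by
        have : 1 ≤ N := le_trans (Nat.one_le_pow _ _ hH1) hN
        exact_mod_cast this
      apply mul_le_mul_of_nonneg_right _ (Real.log_nonneg hN1)
      have h4 := Nat.le_ceil (1 / c T)
      have h5 : (0 : ℝ) < (⌈1 / c T⌉₊ : ℝ) := by exact_mod_cast hJ
      rw [div_le_iff₀ h5]
      rw [div_le_iff₀ (hc T)] at h4
      linarith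
    · rw [hs p hp.squarefree, ArithmeticFunction.moebius_apply_prime hp]
      simp
  · obtain ⟨j, hj1, hj2, h3⟩ := h1 H N (by omega)
      ((Nat.pow_le_pow_right hH1 (by omega)).trans hN) χ f hf hs
    exact ⟨j, hj1, by omega, fun h => absurd h hl, h3⟩

end Pool.Agent.H24.GG
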