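import Pool.Agent.H24.GG.Main

/-!
Theorem (G): the plain forms, from `T_GG`.
-/

set_option autoImplicit false

open MeasureTheory ProbabilityTheory Filter Topology Finset
open scoped ENNReal

namespace Pool.Agent.H24.GG

open Pool.Agent.H89.MT (I1 X pt lavg QuasiGeneric z1)
open Pool.Agent.H83.W (S S_cont qg_mp)
open Pool.Agent.H6.N4D (ee norm_ee ee_add Lio)
open Pool.Agent.H93.EB (M cr lg Base)
open Pool.Agent.H24.EG

theorem ee_exp (x : ℝ) : ee x = Complex.exp (2 * Real.pi * Complex.I * x) := by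
  unfold ee
  congr 1
  push_cast
  ring

/-- one window -/
theorem win_eq (R H n : ℕ) (b : ℕ → ℂ) (β : ℕ → ℝ) (hn : 1 ≤ n) :
    ∑ m ∈ Ioc n (n + H), ‖(lio m : ℂ) - ∑ r ∈ range R, (b r * ee (-(β r * n))) * ee (β r * m)‖ ^ 2 =
      ∑ h ∈ Icc 1 H, ‖(-1 : ℂ) ^ ArithmeticFunction.cardFactors (n + h) - ∑ r ∈ range R,
          b r * Complex.exp (2 * Real.pi * Complex.I * (β r * h))‖ ^ 2 := by
  refine Finset.sum_nbij' (fun m => m - n) (fun m => n + m) ?_ ?_ ?_ ?_ ?_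
  · intro m hm; rw [Finset.mem_Ioc] at hm; rw [Finset.mem_Icc]; omega
  · intro m hm; rw [Finset.mem_Icc] at hm; rw [Finset.mem_Ioc]; omega
  · intro m hm; rw [Finset.mem_Ioc] at hm; show n + (m - n) = m; omega
  · intro m _; show n + m - n = m; omega
  · intro m hm
    rw [Finset.mem_Ioc] at hm
    obtain ⟨k, rfl⟩ : ∃ k, m = n + k := ⟨m - n, by omega⟩
    have hk : n + k - n = k := by omega
    have h4 : (lio (n + k) : ℂ) = (-1 : ℂ) ^ ArithmeticFunction.cardFactors (n + k) := by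
      unfold lio
      rw [if_neg (by omega)]
      push_cast
      ring
    have h5 : ∀ r, (b r * ee (-(β r * n))) * ee (β r * ((n + k : ℕ) : ℝ)) =
        b r * Complex.exp (2 * Real.pi * Complex.I * (β r * k)) := by
      intro r
      have h6 : -(β r * n) + β r * ((n + k : ℕ) : ℝ) = β r * k := by
        push_cast
        ring
      rw [mul_assoc, ← ee_add, h6, ee_exp]
      push_cast
      rfl
    rw [hk, h4, Finset.sum_congr rfl fun r _ => h5 r]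

/-- the finite form in plain words -/
theorem plain_fin (h : T_GG) : ∀ R : ℕ → ℕ, ∃ K : ℕ, ∀ H, K ≤ H → ∃ X₀ : ℕ, ∀ X, X₀ ≤ X →
    ∃ j : ℕ, 1 ≤ j ∧ j ≤ K ∧ ∀ (b : ℕ → ℕ → ℂ) (β : ℕ → ℕ → ℝ), (∀ n r, ‖b n r‖ ≤ 1) →
      1 / (j : ℝ) * Real.log X < ∑ n ∈ Icc 1 X, 1 / (n : ℝ) * ((∑ h ∈ Icc 1 H,
        ‖(-1 : ℂ) ^ ArithmeticFunction.cardFactors (n + h) - ∑ r ∈ range (R j),
          b n r * Complex.exp (2 * Real.pi * Complex.I * (β n r * h))‖ ^ 2) / H) := by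
  intro R
  obtain ⟨K, h⟩ := h R
  refine ⟨K, fun H hH => ?_⟩
  obtain ⟨X₀, h⟩ := h H hH
  refine ⟨X₀, fun X hX => ?_⟩
  obtain ⟨j, h1, h2, h3⟩ := h X lio hX lio_Lio
  refine ⟨j, h1, h2, fun b β hb => ?_⟩
  rw [← not_le]
  intro hle
  apply h3
  refine ⟨fun n r => b n r * ee (-(β n r * n)), β, ?_, ?_⟩
  · intro n r
    rw [norm_mul, norm_ee, mul_one]
    exact hb n r
  · refine le_trans (le_of_eq ?_) hle
    unfold lg
    refine Finset.sum_congr rfl fun n hn => ?_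
    beta_reduce
    rw [win_eq (R j) H n (b n) (β n) (Finset.mem_Icc.1 hn).1, one_div, inv_mul_eq_div]

/-- the coordinate `y 0` is in the closed linear span of the eigenfunctions in `L²(ν)` -/
def Span0 (ν : Measure X) : Prop := ∀ ε : ℝ, 0 < ε → ∃ (k : ℕ) (θ : ℕ → ℝ) (F : ℕ → X → ℂ),
  (∀ i, Measurable (F i) ∧ Integrable (fun y => ‖F i y‖ ^ 2) ν ∧
    ∀ᵐ y ∂ν, F i (S y) = Complex.exp (2 * Real.pi * Complex.I * θ i) * F i y) ∧
  ∫ y, ‖((y 0 : ℝ) : ℂ) - ∑ i ∈ range k, F i y‖ ^ 2 ∂ν ≤ ε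

/-- the theorem on Furstenberg systems in plain words -/
theorem plain_fur (h : T_GGW) (u : ℕ → I1)
    (hu : ∀ n, 0 < n → (u n : ℝ) = (-1) ^ ArithmeticFunction.cardFactors n)
    (κ : Measure X) [IsProbabilityMeasure κ] (hκ : QuasiGeneric u κ) :
    ¬ ∀ᵐ x ∂κ, Span0 (comp κ x) := by
  intro hA
  refine main h u hu κ hκ ?_
  filter_upwards [hA] with x hx e he
  have hP : IsProbabilityMeasure (comp κ x) := by unfold comp; infer_instance
  obtain ⟨k, θ, F, h1, h2⟩ := hx (e / 2) (by linarith)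
  have h3 : ∀ r, ∀ᵐ y ∂comp κ x, F r (S y) = ee (θ r) * F r y := by
    intro r
    filter_upwards [(h1 r).2.2] with y hy
    rw [hy, ee_exp]
  obtain ⟨m, hm⟩ := appr_of_sq (show 0 < e / 2 by linarith) F θ (fun r => (h1 r).1)
    (fun r => (h1 r).2.1) h3 h2
  refine ⟨m, ?_⟩
  rwa [mul_div_cancel₀ e two_ne_zero] at hm

end Pool.Agent.H24.GG
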