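import Pool.Agent.H93.GS.Targets
import Pool.Agent.H24.GG.Plain

/-!
# Theorem (G), MP_c59857_nt: from the assembly to the plain statement
-/

set_option autoImplicit false

namespace Pool.Agent.H24.GG

open Finset Pool.Agent.H6.N4D Pool.Agent.H93.EB

theorem gg_of_gft (h : Pool.Agent.H93.GS.T_GFT) : T_GG := by
  intro R
  obtain ⟨K, _, h⟩ := h R
  refine ⟨K, fun H hH => ?_⟩
  obtain ⟨X₀, h⟩ := h H hH
  refine ⟨X₀, fun X lam hX hl => ?_⟩
  obtain ⟨j, h1, h2, h3⟩ := h X lam hX hl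
  refine ⟨j, h1, h2, ?_⟩
  rintro ⟨b, β, hb, hB⟩
  exact absurd (h3 b β hb) (not_lt.2 hB)

end Pool.Agent.H24.GG
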