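import Pool.Agent.H93.GS.Asm
import Pool.Agent.H24.GG.Br

/-!
# Theorem (G), MP_c59857_nt: the finite form in plain words, uniformly in the length of the windows
-/

set_option autoImplicit false

open Finset

namespace Pool.Agent.H24.GG

open Pool.Agent.H6.N4D (ee norm_ee Lio)
open Pool.Agent.H93.EB (lg)
open Pool.Agent.H24.EG

/-- the finite form in plain words -/
theorem plain_fiu (h : Pool.Agent.H93.GS.T_GFU) : ∀ R : ℕ → ℕ, ∃ K : ℕ, ∀ H X : ℕ, K ≤ H →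
    H ^ K ≤ X → ∃ j : ℕ, 1 ≤ j ∧ j ≤ K ∧
    ∀ (b : ℕ → ℕ → ℂ) (β : ℕ → ℕ → ℝ), (∀ n r, ‖b n r‖ ≤ 1) →
      1 / (j : ℝ) * Real.log X < ∑ n ∈ Icc 1 X, 1 / (n : ℝ) * ((∑ h ∈ Icc 1 H,
        ‖(-1 : ℂ) ^ ArithmeticFunction.cardFactors (n + h) - ∑ r ∈ range (R j),
          b n r * Complex.exp (2 * Real.pi * Complex.I * (β n r * h))‖ ^ 2) / H) := by
  intro R
  obtain ⟨K, _, h⟩ := h R
  refine ⟨K, fun H X hH hX => ?_⟩
  obtain ⟨j, h1, h2, h3⟩ := h X H lio hH hX lio_Lio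
  refine ⟨j, h1, h2, fun b β hb => ?_⟩
  have h4 := h3 (fun n r => b n r * ee (-(β n r * n))) β (fun n r => by
    rw [norm_mul, norm_ee, mul_one]
    exact hb n r)
  refine lt_of_lt_of_le h4 (le_of_eq ?_)
  unfold lg
  refine Finset.sum_congr rfl fun n hn => ?_
  beta_reduce
  rw [win_eq (R j) H n (b n) (β n) (Finset.mem_Icc.1 hn).1, one_div, inv_mul_eq_div]

theorem gg_of_gfu (h : Pool.Agent.H93.GS.T_GFU) : T_GG :=
  gg_of_gft (Pool.Agent.H93.GS.gft_of_gfu h)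

end Pool.Agent.H24.GG
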