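import Pool.Agent.H93.EB.Defs

/-!
# Theorem (G) (MP_c59857_nt): the finite form
-/

set_option autoImplicit false

namespace Pool.Agent.H24.GG

open Finset Pool.Agent.H6.N4D Pool.Agent.H93.EB

/-- Theorem (G): if `lam` is close in mean square, on the windows of length `S`, to sums of `R`
exponentials chosen after the window, then its largest local Fourier coefficients are small; the
closeness `e` depends only on `ε`, not on `R`. -/
def T_G : Prop := ∀ ε : ℝ, 0 < ε → ∃ e : ℝ, 0 < e ∧ ∀ R : ℕ, ∃ S₀ : ℕ, ∀ S, S₀ ≤ S →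
  ∃ X₀ : ℕ, ∀ (X : ℕ) (lam : ℕ → ℝ), X₀ ≤ X → Lio lam → Base lam R S e X →
    lg X (fun n => M lam S n ^ 2) ≤ ε * Real.log X

/-- The weak form of (G): closeness on all window lengths from `S₁` to `S₂`, conclusion for one
window length. It is enough for the theorem on Furstenberg systems. -/
def T_GW : Prop := ∀ ε : ℝ, 0 < ε → ∃ e : ℝ, 0 < e ∧ ∀ R S₁ : ℕ, ∃ S₂ : ℕ, S₁ ≤ S₂ ∧
  ∃ X₀ : ℕ, ∀ (X : ℕ) (lam : ℕ → ℝ), X₀ ≤ X → Lio lam →
    (∀ S, S₁ ≤ S → S ≤ S₂ → Base lam R S e X) →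
    ∃ S, S₁ ≤ S ∧ S ≤ S₂ ∧ lg X (fun n => M lam S n ^ 2) ≤ ε * Real.log X

theorem gw_of_g (h : T_G) : T_GW := by
  intro ε hε
  obtain ⟨e, he, h⟩ := h ε hε
  refine ⟨e, he, fun R S₁ => ?_⟩
  obtain ⟨S₀, h⟩ := h R
  obtain ⟨X₀, h⟩ := h (max S₀ S₁) (le_max_left _ _)
  refine ⟨max S₀ S₁, le_max_right _ _, X₀, fun X lam hX hl hB => ?_⟩
  exact ⟨max S₀ S₁, le_max_right _ _, le_rfl, h X lam hX hl (hB _ (le_max_right _ _) le_rfl)⟩

end Pool.Agent.H24.GG
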