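import Pool.Agent.H24.GG.Defs

/-!
# Theorem (G) (MP_c59857_nt): the finite form with two levels of closeness
-/

set_option autoImplicit false

namespace Pool.Agent.H24.GG

open Finset Pool.Agent.H6.N4D Pool.Agent.H93.EB

/-- Theorem (G), form with two levels of closeness: if `lam` is `e₁`-close to sums of `R₁`
exponentials and `e₂`-close to sums of `R₂` exponentials on the windows of length `S`, then its
largest local Fourier coefficients are small. Here `e₁` depends on `ε` only, `R₁` is arbitrary,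
`e₂` depends on `ε` and `R₁`, and `R₂` is arbitrary. -/
def T_G2 : Prop := ∀ ε : ℝ, 0 < ε → ∃ e₁ : ℝ, 0 < e₁ ∧ ∀ R₁ : ℕ, ∃ e₂ : ℝ, 0 < e₂ ∧
  ∀ R₂ : ℕ, ∃ S₀ : ℕ, ∀ S, S₀ ≤ S → ∃ X₀ : ℕ, ∀ (X : ℕ) (lam : ℕ → ℝ), X₀ ≤ X → Lio lam →
    Base lam R₁ S e₁ X → Base lam R₂ S e₂ X →
    lg X (fun n => M lam S n ^ 2) ≤ ε * Real.log X

/-- The weak form of `T_G2`: closeness on all window lengths from `S₁` to `S₂`, conclusion for one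
window length. It is enough for the theorem on Furstenberg systems. -/
def T_GW2 : Prop := ∀ ε : ℝ, 0 < ε → ∃ e₁ : ℝ, 0 < e₁ ∧ ∀ R₁ : ℕ, ∃ e₂ : ℝ, 0 < e₂ ∧
  ∀ R₂ S₁ : ℕ, ∃ S₂ : ℕ, S₁ ≤ S₂ ∧ ∃ X₀ : ℕ, ∀ (X : ℕ) (lam : ℕ → ℝ), X₀ ≤ X → Lio lam →
    (∀ S, S₁ ≤ S → S ≤ S₂ → Base lam R₁ S e₁ X ∧ Base lam R₂ S e₂ X) →
    ∃ S, S₁ ≤ S ∧ S ≤ S₂ ∧ lg X (fun n => M lam S n ^ 2) ≤ ε * Real.log X

theorem gw2_of_g2 (h : T_G2) : T_GW2 := by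
  intro ε hε
  obtain ⟨e₁, he₁, h⟩ := h ε hε
  refine ⟨e₁, he₁, fun R₁ => ?_⟩
  obtain ⟨e₂, he₂, h⟩ := h R₁
  refine ⟨e₂, he₂, fun R₂ S₁ => ?_⟩
  obtain ⟨S₀, h⟩ := h R₂
  obtain ⟨X₀, h⟩ := h (max S₀ S₁) (le_max_left _ _)
  refine ⟨max S₀ S₁, le_max_right _ _, X₀, fun X lam hX hl hB => ?_⟩
  have hb := hB _ (le_max_right _ _) le_rfl
  exact ⟨max S₀ S₁, le_max_right _ _, le_rfl, h X lam hX hl hb.1 hb.2⟩

theorem g2_of_g (h : T_G) : T_G2 := by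
  intro ε hε
  obtain ⟨e, he, h⟩ := h ε hε
  refine ⟨e, he, fun R₁ => ⟨e, he, fun R₂ => ?_⟩⟩
  obtain ⟨S₀, h⟩ := h R₁
  refine ⟨S₀, fun S hS => ?_⟩
  obtain ⟨X₀, h⟩ := h S hS
  exact ⟨X₀, fun X lam hX hl hB _ => h X lam hX hl hB⟩

end Pool.Agent.H24.GG
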