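import Pool.Agent.H93.EB.Defs

/-!
# Theorem (G) (MP_c59857_nt): the finite form of helper93
-/

set_option autoImplicit false

namespace Pool.Agent.H24.GG

open Finset Pool.Agent.H6.N4D Pool.Agent.H93.EB

/-- Theorem (G): for every rate `R` there is `K` such that on the windows of every length `H ≥ K`,
for some `j ≤ K`, `lam` is not `1 / j`-close in mean square to sums of `R j` exponentials chosen
after the window. -/
def T_GG : Prop := ∀ R : ℕ → ℕ, ∃ K : ℕ, ∀ H, K ≤ H → ∃ X₀ : ℕ, ∀ (X : ℕ) (lam : ℕ → ℝ),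
  X₀ ≤ X → Lio lam → ∃ j : ℕ, 1 ≤ j ∧ j ≤ K ∧ ¬ Base lam (R j) H (1 / (j : ℝ)) X

/-- The weak form: it is enough for the theorem on Furstenberg systems. -/
def T_GGW : Prop := ∀ R : ℕ → ℕ, ∃ K X₀ : ℕ, ∀ (X : ℕ) (lam : ℕ → ℝ), X₀ ≤ X → Lio lam →
  ∃ j H : ℕ, 1 ≤ j ∧ j ≤ K ∧ 1 ≤ H ∧ H ≤ K ∧ ¬ Base lam (R j) H (1 / (j : ℝ)) X

theorem ggw_of_gg (h : T_GG) : T_GGW := by
  intro R
  obtain ⟨K, h⟩ := h R
  obtain ⟨X₀, h⟩ := h (K + 1) (Nat.le_succ K)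
  refine ⟨K + 1, X₀, fun X lam hX hl => ?_⟩
  obtain ⟨j, h1, h2, h3⟩ := h X lam hX hl
  exact ⟨j, K + 1, h1, by omega, by omega, le_rfl, h3⟩

end Pool.Agent.H24.GG
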