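import Pool.Agent.H24.EG.Corr
import Pool.Agent.H24.GG.Defs

/-!
Theorem (G), Furstenberg systems: the distance of a point, on the window `(0, S]`, to the sums of
`R` exponentials.
-/

set_option autoImplicit false

open MeasureTheory ProbabilityTheory Filter Topology Finset

namespace Pool.Agent.H24.GG

open Pool.Agent.H89.MT (I1 X pt lavg QuasiGeneric z1)
open Pool.Agent.H6.N4D (ee norm_ee ee_add Lio)
open Pool.Agent.H93.EB (M cr lg Base)
open Pool.Agent.H24.EG (MX MX_cont MX_nonneg MX_le_one MX_pt abs_x dX dX_comm)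

/-- coefficients and frequencies -/
abbrev Par : Type := {b : ℕ → ℂ × ℝ // ∀ r, ‖(b r).1‖ ≤ 1}

instance : Nonempty Par := ⟨⟨fun _ => (0, 0), fun _ => by simp⟩⟩

/-- the exponential sum -/
noncomputable def ex (R : ℕ) (b : Par) (m : ℤ) : ℂ :=
  ∑ r ∈ range R, (b.1 r).1 * ee ((b.1 r).2 * m)

theorem norm_ex (R : ℕ) (b : Par) (m : ℤ) : ‖ex R b m‖ ≤ R := by
  unfold ex
  refine (norm_sum_le _ _).trans ?_
  have h1 : ∀ r ∈ range R, ‖(b.1 r).1 * ee ((b.1 r).2 * m)‖ ≤ 1 := by
    intro r _
    rw [norm_mul, norm_ee, mul_one]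
    exact b.2 r
  refine (Finset.sum_le_sum h1).trans ?_
  simp

/-- the mean square distance on the window -/
noncomputable def dd (R S : ℕ) (y : X) (b : Par) : ℝ :=
  (∑ m ∈ Ioc 0 S, ‖((y (m : ℤ) : ℝ) : ℂ) - ex R b m‖ ^ 2) / S

theorem dd_nonneg (R S : ℕ) (y : X) (b : Par) : 0 ≤ dd R S y b := by
  unfold dd; positivity

/-- the distance to the sums of `R` exponentials -/
noncomputable def DX (R S : ℕ) (y : X) : ℝ := ⨅ b : Par, dd R S y b

theorem bddD (R S : ℕ) (y : X) : BddBelow (Set.range fun b : Par => dd R S y b) :=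
  ⟨0, by rintro y ⟨θ, rfl⟩; exact dd_nonneg R S _ _⟩

theorem DX_le (R S : ℕ) (y : X) (b : Par) : DX R S y ≤ dd R S y b := ciInf_le (bddD R S y) b

theorem DX_nonneg (R S : ℕ) (y : X) : 0 ≤ DX R S y := le_ciInf fun b => dd_nonneg R S y b

theorem DX_le_one (R S : ℕ) (y : X) : DX R S y ≤ 1 := by
  refine (DX_le R S y ⟨fun _ => (0, 0), fun _ => by simp⟩).trans ?_
  unfold dd
  rcases Nat.eq_zero_or_pos S with h | h
  · subst h; simp
  · have hN : (0 : ℝ) < S := by exact_mod_cast h
    rw [div_le_one hN]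
    have h1 : ∀ m ∈ Ioc 0 S, ‖((y (m : ℤ) : ℝ) : ℂ) -
        ex R ⟨fun _ => (0, 0), fun _ => by simp⟩ m‖ ^ 2 ≤ 1 := by
      intro m _
      have h2 : ex R ⟨fun _ => (0, 0), fun _ => by simp⟩ (m : ℤ) = 0 := by
        unfold ex; simp
      rw [h2, sub_zero, Complex.norm_real, Real.norm_eq_abs]
      have := abs_x y (m : ℤ)
      have h3 := abs_nonneg (y (m : ℤ) : ℝ)
      nlinarith
    refine (Finset.sum_le_sum h1).trans ?_
    simp

theorem dd_le (R S : ℕ) (x y : X) (b : Par) :
    dd R S x b ≤ dd R S y b + 2 * (R + 1) * dX S x y := by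
  unfold dd dX
  rw [← mul_div_assoc, ← add_div, Finset.mul_sum, ← Finset.sum_add_distrib]
  apply div_le_div_of_nonneg_right _ (by positivity)
  refine Finset.sum_le_sum fun m _ => ?_
  set a : ℂ := ((x (m : ℤ) : ℝ) : ℂ) - ex R b m with ha
  set a' : ℂ := ((y (m : ℤ) : ℝ) : ℂ) - ex R b m with ha'
  have h1 : ‖a‖ ≤ 1 + R := by
    refine (norm_sub_le _ _).trans (add_le_add ?_ (norm_ex R b m))
    rw [Complex.norm_real, Real.norm_eq_abs]
    exact abs_x x m
  have h2 : ‖a'‖ ≤ 1 + R := by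
    refine (norm_sub_le _ _).trans (add_le_add ?_ (norm_ex R b m))
    rw [Complex.norm_real, Real.norm_eq_abs]
    exact abs_x y m
  have h3 : ‖a - a'‖ = |(x (m : ℤ) : ℝ) - (y (m : ℤ) : ℝ)| := by
    rw [ha, ha', sub_sub_sub_cancel_right, ← Complex.ofReal_sub, Complex.norm_real,
      Real.norm_eq_abs]
  have h4 : ‖a‖ ≤ ‖a'‖ + ‖a - a'‖ := by
    have := norm_add_le a' (a - a')
    rwa [add_sub_cancel] at this
  rw [← h3]
  have h5 := norm_nonneg a
  have h6 := norm_nonneg a'
  have h7 := norm_nonneg (a - a')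
  nlinarith

theorem DX_cont (R S : ℕ) : Continuous (DX R S) := by
  have key : ∀ x y, DX R S x ≤ DX R S y + 2 * (R + 1) * dX S x y := by
    intro x y
    rw [← sub_le_iff_le_add]
    refine le_ciInf fun b => ?_
    rw [sub_le_iff_le_add]
    exact (DX_le R S x b).trans (dd_le R S x y b)
  rw [continuous_iff_continuousAt]
  intro x
  unfold ContinuousAt
  rw [tendsto_iff_dist_tendsto_zero]
  have hc : Continuous fun y : X => 2 * ((R : ℝ) + 1) * dX S y x := by
    unfold dX
    refine Continuous.mul continuous_const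
      (Continuous.div_const (continuous_finsetSum _ fun m _ => ?_) _)
    exact ((continuous_subtype_val.comp (continuous_apply (m : ℤ))).sub continuous_const).abs
  have h0 : 2 * ((R : ℝ) + 1) * dX S x x = 0 := by simp [dX]
  have hlim : Tendsto (fun y : X => 2 * ((R : ℝ) + 1) * dX S y x) (𝓝 x) (𝓝 0) := by
    have := hc.tendsto x
    rwa [h0] at this
  refine squeeze_zero (fun y => dist_nonneg) (fun y => ?_) hlim
  rw [Real.dist_eq, abs_le]
  have h1 := key x y
  have h2 := key y x
  rw [dX_comm S x y] at h1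
  constructor <;> linarith

/-- the harmonic sum -/
theorem harm_le {N : ℕ} (hN : 3 ≤ N) : ∑ n ∈ Icc 1 N, (1 : ℝ) / n ≤ 2 * Real.log N := by
  have h1 := harmonic_le_one_add_log N
  have h2 : ((harmonic N : ℚ) : ℝ) = ∑ n ∈ Icc 1 N, (1 : ℝ) / n := by
    rw [harmonic_eq_sum_Icc]
    push_cast
    exact Finset.sum_congr rfl fun n _ => by rw [one_div]
  rw [h2] at h1
  have h3 : (1 : ℝ) ≤ Real.log N := by
    rw [Real.le_log_iff_exp_le (by positivity)]
    have h4 := Real.exp_one_lt_d9
    have h5 : (3 : ℝ) ≤ N := by exact_mod_cast hN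
    linarith
  linarith

/-- from the points of the orbit to the windows -/
theorem base_of {u : ℕ → I1} (lam : ℕ → ℝ) (h : ∀ n, 0 < n → lam n = (u n : ℝ)) (R S N : ℕ)
    (hN : 3 ≤ N) {e e' : ℝ} (he' : 0 < e')
    (hD : lg N (fun n => DX R S (pt u n)) ≤ e * Real.log N) : Base lam R S (e + 2 * e') N := by
  have h1 : ∀ n : ℕ, ∃ b : Par, dd R S (pt u n) b < DX R S (pt u n) + e' := fun n =>
    exists_lt_of_ciInf_lt (lt_add_of_pos_right _ he')
  choose b hb using h1
  refine ⟨fun n r => ((b n).1 r).1 * ee (-(((b n).1 r).2 * n)), fun n r => ((b n).1 r).2, ?_, ?_⟩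
  · intro n r
    rw [norm_mul, norm_ee, mul_one]
    exact (b n).2 r
  · have h2 : ∀ n : ℕ, (∑ m ∈ Ioc n (n + S), ‖(lam m : ℂ) - ∑ r ∈ range R,
        ((b n).1 r).1 * ee (-(((b n).1 r).2 * n)) * ee (((b n).1 r).2 * m)‖ ^ 2) / S =
        dd R S (pt u n) (b n) := by
      intro n
      unfold dd
      congr 1
      refine Finset.sum_nbij' (fun m => m - n) (fun m => n + m) ?_ ?_ ?_ ?_ ?_
      · intro m hm; rw [Finset.mem_Ioc] at hm ⊢; omega
      · intro m hm; rw [Finset.mem_Ioc] at hm ⊢; omega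
      · intro m hm; rw [Finset.mem_Ioc] at hm; show n + (m - n) = m; omega
      · intro m _; show n + m - n = m; omega
      · intro m hm
        rw [Finset.mem_Ioc] at hm
        obtain ⟨k, rfl⟩ : ∃ k, m = n + k := ⟨m - n, by omega⟩
        rw [show n + k - n = k by omega]
        have h3 : (pt u n (k : ℤ) : ℝ) = lam (n + k) := by
          unfold pt
          rw [if_pos (by omega), h (n + k) (by omega)]
          congr 2
        rw [h3]
        congr 2
        unfold ex
        congr 1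
        refine Finset.sum_congr rfl fun r _ => ?_
        rw [mul_assoc, ← ee_add]
        congr 2
        push_cast
        ring
    have hlog : (0 : ℝ) ≤ Real.log N := Real.log_natCast_nonneg N
    calc lg N (fun n => (∑ m ∈ Ioc n (n + S), ‖(lam m : ℂ) - ∑ r ∈ range R,
          ((b n).1 r).1 * ee (-(((b n).1 r).2 * n)) * ee (((b n).1 r).2 * m)‖ ^ 2) / S)
        ≤ lg N (fun n => DX R S (pt u n)) + e' * ∑ n ∈ Icc 1 N, (1 : ℝ) / n := by
          unfold lg
          rw [Finset.mul_sum, ← Finset.sum_add_distrib]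
          refine Finset.sum_le_sum fun n _ => ?_
          beta_reduce
          rw [h2 n, mul_one_div, ← add_div]
          exact div_le_div_of_nonneg_right (hb n).le (Nat.cast_nonneg n)
      _ ≤ e * Real.log N + e' * (2 * Real.log N) :=
          add_le_add hD (mul_le_mul_of_nonneg_left (harm_le hN) he'.le)
      _ = (e + 2 * e') * Real.log N := by ring

end Pool.Agent.H24.GG
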