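import Pool.Agent.H24.EG.Comp
import Pool.Agent.H24.GG.Win
import Pool.Agent.H24.GG.Defs3

/-!
Theorem (G), Furstenberg systems: components with discrete spectrum.
-/

set_option autoImplicit false

open MeasureTheory ProbabilityTheory Filter Topology Finset
open scoped ENNReal

namespace Pool.Agent.H24.GG

open Pool.Agent.H89.MT (I1 X pt lavg QuasiGeneric z1)
open Pool.Agent.H83.W (S S_cont qg_mp)
open Pool.Agent.H6.N4D (ee norm_ee ee_add Lio)
open Pool.Agent.H93.EB (M cr lg Base)
open Pool.Agent.H24.EG

/-- the coordinate `y 0` is, up to `e` in mean square, a sum of `m` eigenfunctions bounded by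
`1` -/
def Appr (ν : Measure X) (m : ℕ) (e : ℝ) : Prop :=
  ∃ (F : ℕ → X → ℂ) (θ : ℕ → ℝ), (∀ r, Measurable (F r)) ∧ (∀ r y, ‖F r y‖ ≤ 1) ∧
    (∀ r, ∀ᵐ y ∂ν, F r (S y) = ee (θ r) * F r y) ∧
    ∫ y, ‖((y 0 : ℝ) : ℂ) - ∑ r ∈ range m, F r y‖ ^ 2 ∂ν ≤ e

theorem appr_mono {ν : Measure X} {m m' : ℕ} {e : ℝ} (h : m ≤ m') (hA : Appr ν m e) :
    Appr ν m' e := by
  obtain ⟨F, θ, h1, h2, h3, h4⟩ := hA
  refine ⟨fun r => if r < m then F r else fun _ => 0, θ, ?_, ?_, ?_, ?_⟩
  · intro r
    by_cases hr : r < m
    · simp only [hr, if_true]; exact h1 r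
    · simp only [hr, if_false]; exact measurable_const
  · intro r y
    by_cases hr : r < m
    · simp only [hr, if_true]; exact h2 r y
    · simp only [hr, if_false, norm_zero]; exact zero_le_one
  · intro r
    by_cases hr : r < m
    · simp only [hr, if_true]; exact h3 r
    · simp only [hr, if_false, mul_zero]; exact Eventually.of_forall fun _ => trivial
  · refine le_trans (le_of_eq ?_) h4
    congr 1
    funext y
    congr 3
    rw [← Finset.sum_subset (Finset.range_mono h)]
    · refine Finset.sum_congr rfl fun r hr => ?_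
      show (if r < m then F r else fun _ => 0) y = F r y
      rw [if_pos (Finset.mem_range.1 hr)]
    · intro r _ hr
      show (if r < m then F r else fun _ => 0) y = 0
      rw [if_neg (fun h' => hr (Finset.mem_range.2 h'))]

theorem c0_meas (m : ℤ) : Measurable fun y : X => ((y m : ℝ) : ℂ) :=
  Complex.measurable_ofReal.comp (measurable_subtype_coe.comp (measurable_pi_apply m))

/-- close to sums of eigenfunctions: close to sums of exponentials on the windows -/
theorem int_DX_le {ν : Measure X} [IsProbabilityMeasure ν] (hS : MeasurePreserving S ν ν)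
    {m : ℕ} {e : ℝ} (hA : Appr ν m e) {H : ℕ} (hH : 0 < H) : ∫ y, DX m H y ∂ν ≤ e := by
  obtain ⟨F, θ, h1, h2, h3, h4⟩ := hA
  set G : X → ℝ := fun y => ‖((y 0 : ℝ) : ℂ) - ∑ r ∈ range m, F r y‖ ^ 2 with hG
  have hGm : Measurable G :=
    (((c0_meas 0).sub (Finset.measurable_fun_sum _ fun r _ => h1 r)).norm).pow_const 2
  have hGb : ∀ y, ‖G y‖ ≤ (1 + m : ℝ) ^ 2 := by
    intro y
    rw [hG, Real.norm_eq_abs, abs_of_nonneg (by positivity)]
    apply pow_le_pow_left₀ (norm_nonneg _)
    refine (norm_sub_le _ _).trans (add_le_add ?_ ?_)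
    · rw [Complex.norm_real, Real.norm_eq_abs]; exact abs_x y 0
    · refine (norm_sum_le _ _).trans ((Finset.sum_le_sum fun r _ => h2 r y).trans ?_)
      simp
  have hGi : Integrable G ν :=
    Integrable.of_bound hGm.aestronglyMeasurable _ (Eventually.of_forall hGb)
  have hGh : ∀ h : ℕ, Integrable (fun y => G (S^[h] y)) ν := fun h =>
    (hS.iterate h).integrable_comp_of_integrable hGi
  have hGe : ∀ h : ℕ, ∫ y, G (S^[h] y) ∂ν = ∫ y, G y ∂ν := by
    intro h
    have hmp := hS.iterate h
    calc ∫ y, G (S^[h] y) ∂ν = ∫ y, G y ∂(ν.map (S^[h])) := by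
          rw [integral_map hmp.measurable.aemeasurable hGm.aestronglyMeasurable]
      _ = ∫ y, G y ∂ν := by rw [hmp.map_eq]
  have h5 : ∀ᵐ y ∂ν, ∀ r h : ℕ, F r (S^[h] y) = ee (θ r * h) * F r y := by
    rw [ae_all_iff]
    intro r
    rw [ae_all_iff]
    exact fun h => eig_iter hS (h3 r) h
  have h6 : ∀ᵐ y ∂ν, DX m H y ≤ (∑ h ∈ Ioc 0 H, G (S^[h] y)) / H := by
    filter_upwards [h5] with y hy
    refine (DX_le m H y ⟨fun r => (F r y, θ r), fun r => h2 r y⟩).trans (le_of_eq ?_)
    unfold dd
    congr 1
    refine Finset.sum_congr rfl fun h _ => ?_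
    simp only [hG]
    rw [iter_S, zero_add]
    congr 2
    unfold ex
    congr 1
    refine Finset.sum_congr rfl fun r _ => ?_
    rw [hy r h, mul_comm]
    simp
  have hH0 : (0 : ℝ) < H := by exact_mod_cast hH
  calc ∫ y, DX m H y ∂ν ≤ ∫ y, (∑ h ∈ Ioc 0 H, G (S^[h] y)) / H ∂ν := by
        refine integral_mono_ae ?_ ((integrable_finsetSum _ fun h _ => hGh h).div_const _) h6
        refine Integrable.of_bound (C := 1) (DX_cont m H).aestronglyMeasurable
          (Eventually.of_forall fun y => ?_)
        rw [Real.norm_eq_abs, abs_of_nonneg (DX_nonneg m H y)]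
        exact DX_le_one m H y
    _ = ∫ y, G y ∂ν := by
        rw [integral_div, integral_finsetSum _ fun h _ => hGh h]
        rw [Finset.sum_congr rfl fun h _ => hGe h, Finset.sum_const, Nat.card_Ioc, Nat.sub_zero,
          nsmul_eq_mul, mul_div_cancel_left₀ _ hH0.ne']
    _ ≤ e := h4

/-- the mean of the distance over all components -/
theorem int_DX_comp {κ : Measure X} [IsProbabilityMeasure κ] (hS : MeasurePreserving S κ κ)
    {m : ℕ} {e : ℝ} (he : 0 < e)
    (hA : 1 - ENNReal.ofReal e ≤ κ {x | Appr (comp κ x) m e}) {H : ℕ} (hH : 0 < H) :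
    ∫ x, DX m H x ∂κ ≤ 2 * e := by
  have hP : ∀ x, IsProbabilityMeasure (comp κ x) := fun x => by unfold comp; infer_instance
  have hI : Integrable (DX m H) κ := by
    refine Integrable.of_bound (C := 1) (DX_cont m H).aestronglyMeasurable
      (Eventually.of_forall fun y => ?_)
    rw [Real.norm_eq_abs, abs_of_nonneg (DX_nonneg m H y)]
    exact DX_le_one m H y
  set g : X → ℝ := fun x => ∫ y, DX m H y ∂comp κ x with hg
  have hgm : Measurable g := by
    have h3 := StronglyMeasurable.integral_condExpKernel (μ := κ) (m := IS)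
      (DX_cont m H).measurable.stronglyMeasurable
    exact (h3.mono IS_le).measurable
  have hg0 : ∀ x, 0 ≤ g x := fun x => integral_nonneg fun y => DX_nonneg _ _ y
  have hg1 : ∀ x, g x ≤ 1 := fun x => by
    calc g x ≤ ∫ _y, (1 : ℝ) ∂comp κ x := by
          refine integral_mono_of_nonneg (Eventually.of_forall fun y => DX_nonneg _ _ y)
            (integrable_const _) (Eventually.of_forall fun y => DX_le_one _ _ y)
      _ = 1 := by simp
  have h4 : ∫ x, g x ∂κ = ∫ x, DX m H x ∂κ := by
    have h3 := condExp_ae_eq_integral_condExpKernel (μ := κ) IS_le hI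
    rw [← integral_condExp (μ := κ) (f := DX m H) IS_le]
    exact (integral_congr_ae h3).symm
  rw [← h4]
  set B : Set X := {x | e < g x} with hB
  have hBm : MeasurableSet B := measurableSet_lt measurable_const hgm
  have h5 : κ {x | Appr (comp κ x) m e} ≤ κ Bᶜ := by
    refine measure_mono_ae ?_
    filter_upwards [comp_mp κ hS] with x hx hAx
    show ¬ e < g x
    rw [not_lt]
    have := hP x
    exact int_DX_le hx hAx hH
  have h6 : κ.real B ≤ e := by
    have h7 : κ.real Bᶜ = 1 - κ.real B := by
      rw [measureReal_compl hBm, probReal_univ]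
    have h8 : 1 - e ≤ κ.real Bᶜ := by
      unfold Measure.real
      have h9 : 1 - ENNReal.ofReal e ≤ κ Bᶜ := hA.trans h5
      have h10 : (1 - ENNReal.ofReal e).toReal ≤ (κ Bᶜ).toReal :=
        ENNReal.toReal_mono (measure_ne_top _ _) h9
      refine le_trans ?_ h10
      rcases le_total e 1 with h | h
      · rw [ENNReal.toReal_sub_of_le (by rw [← ENNReal.ofReal_one]; exact ENNReal.ofReal_le_ofReal h)
          ENNReal.one_ne_top, ENNReal.toReal_one, ENNReal.toReal_ofReal he.le]
      · exact le_trans (by linarith) ENNReal.toReal_nonneg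
    linarith
  have h11 : ∀ x, g x ≤ e + B.indicator (fun _ => (1 : ℝ)) x := by
    intro x
    by_cases hx : x ∈ B
    · rw [Set.indicator_of_mem hx]; linarith [hg1 x]
    · rw [Set.indicator_of_notMem hx, add_zero]
      exact not_lt.1 hx
  calc ∫ x, g x ∂κ ≤ ∫ x, (e + B.indicator (fun _ => (1 : ℝ)) x) ∂κ := by
        refine integral_mono_of_nonneg (Eventually.of_forall hg0) ?_ (Eventually.of_forall h11)
        exact (integrable_const e).add ((integrable_const (1 : ℝ)).indicator hBm)
    _ = e + κ.real B := by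
        rw [integral_add (integrable_const e) ((integrable_const (1 : ℝ)).indicator hBm),
          integral_const, integral_indicator hBm, setIntegral_const]
        simp
    _ ≤ 2 * e := by linarith

end Pool.Agent.H24.GG
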