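import Pool.Agent.H24.GG.Eig
import Pool.Agent.H24.EG.Fin

/-!
Theorem (G), Furstenberg systems: the theorem, from the finite form.
-/

set_option autoImplicit false

open MeasureTheory ProbabilityTheory Filter Topology Finset
open scoped ENNReal

namespace Pool.Agent.H24.GG

open Pool.Agent.H89.MT (I1 X pt lavg QuasiGeneric z1)
open Pool.Agent.H83.W (S S_cont qg_mp)
open Pool.Agent.H6.N4D (ee norm_ee ee_add Lio)
open Pool.Agent.H93.EB (M cr lg Base)
open Pool.Agent.H24.EG

/-- a sum over a multiple of `C` -/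
theorem sum_div {E : Type*} [AddCommMonoid E] (f : ℕ → E) (C : ℕ) (hC : 0 < C) (k : ℕ) :
    ∑ r ∈ range (k * C), f (r / C) = ∑ i ∈ range k, C • f i := by
  induction k with
  | zero => simp
  | succ k ih =>
    rw [Nat.succ_mul, Finset.sum_range_add, ih, Finset.sum_range_succ]
    congr 1
    have : ∀ x ∈ range C, f ((k * C + x) / C) = f k := by
      intro x hx
      rw [Finset.mem_range] at hx
      congr 1
      rw [Nat.mul_comm, Nat.mul_add_div hC, Nat.div_eq_of_lt hx, add_zero]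
    rw [Finset.sum_congr rfl this, Finset.sum_const, card_range]

/-- bounded eigenfunctions are sums of eigenfunctions bounded by `1` -/
theorem appr_of_bdd {ν : Measure X} {k C : ℕ} {e : ℝ} (hC : 0 < C) (F : ℕ → X → ℂ) (θ : ℕ → ℝ)
    (h1 : ∀ r, Measurable (F r)) (h2 : ∀ r y, ‖F r y‖ ≤ C)
    (h3 : ∀ r, ∀ᵐ y ∂ν, F r (S y) = ee (θ r) * F r y)
    (h4 : ∫ y, ‖((y 0 : ℝ) : ℂ) - ∑ r ∈ range k, F r y‖ ^ 2 ∂ν ≤ e) : Appr ν (k * C) e := by
  have hC0 : (C : ℂ) ≠ 0 := by exact_mod_cast hC.ne'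
  have hC1 : (0 : ℝ) < C := by exact_mod_cast hC
  refine ⟨fun r y => F (r / C) y / C, fun r => θ (r / C), ?_, ?_, ?_, ?_⟩
  · exact fun r => (h1 _).div_const _
  · intro r y
    rw [norm_div, Complex.norm_natCast, div_le_one hC1]
    exact h2 _ y
  · intro r
    filter_upwards [h3 (r / C)] with y hy
    rw [hy, mul_div_assoc]
  · refine le_trans (le_of_eq ?_) h4
    congr 1
    funext y
    congr 3
    rw [sum_div (fun i => F i y / C) C hC k]
    refine Finset.sum_congr rfl fun i _ => ?_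
    rw [nsmul_eq_mul, mul_div_cancel₀ _ hC0]

/-- truncation -/
theorem appr_of_sq {ν : Measure X} [IsProbabilityMeasure ν] {k : ℕ} {e : ℝ} (he : 0 < e)
    (F : ℕ → X → ℂ) (θ : ℕ → ℝ)
    (h1 : ∀ r, Measurable (F r)) (h2 : ∀ r, Integrable (fun y => ‖F r y‖ ^ 2) ν)
    (h3 : ∀ r, ∀ᵐ y ∂ν, F r (S y) = ee (θ r) * F r y)
    (h4 : ∫ y, ‖((y 0 : ℝ) : ℂ) - ∑ r ∈ range k, F r y‖ ^ 2 ∂ν ≤ e) :
    ∃ m, Appr ν m (2 * e) := by
  classical
  set T : ℕ → ℕ → X → ℂ := fun C r y => if ‖F r y‖ ≤ C then F r y else 0 with hT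
  have hTm : ∀ C r, Measurable (T C r) := fun C r =>
    Measurable.ite (measurableSet_le (h1 r).norm measurable_const) (h1 r) measurable_const
  have hTb : ∀ C r y, ‖T C r y‖ ≤ C := by
    intro C r y
    simp only [hT]
    split_ifs with h
    · exact h
    · rw [norm_zero]; exact Nat.cast_nonneg C
  have hTF : ∀ C r y, ‖T C r y‖ ≤ ‖F r y‖ := by
    intro C r y
    simp only [hT]
    split_ifs with h
    · exact le_rfl
    · rw [norm_zero]; exact norm_nonneg _
  have hTe : ∀ C r, ∀ᵐ y ∂ν, T C r (S y) = ee (θ r) * T C r y := by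
    intro C r
    filter_upwards [h3 r] with y hy
    simp only [hT]
    rw [hy, norm_mul, norm_ee, one_mul]
    split_ifs with h
    · rfl
    · rw [mul_zero]
  -- convergence
  have hc0 : Measurable fun y : X => ((y 0 : ℝ) : ℂ) := c0_meas 0
  have hlim : Tendsto (fun C : ℕ => ∫ y, ‖((y 0 : ℝ) : ℂ) - ∑ r ∈ range k, T C r y‖ ^ 2 ∂ν) atTop
      (𝓝 (∫ y, ‖((y 0 : ℝ) : ℂ) - ∑ r ∈ range k, F r y‖ ^ 2 ∂ν)) := by
    refine tendsto_integral_of_dominated_convergence
      (fun y => ((k : ℝ) + 1) * (1 + ∑ r ∈ range k, ‖F r y‖ ^ 2)) ?_ ?_ ?_ ?_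
    · intro C
      exact (((hc0.sub (Finset.measurable_fun_sum _ fun r _ => hTm C r)).norm).pow_const
        2).aestronglyMeasurable
    · exact ((integrable_const _).add (integrable_finsetSum _ fun r _ => h2 r)).const_mul _
    · intro C
      refine Eventually.of_forall fun y => ?_
      rw [Real.norm_eq_abs, abs_of_nonneg (by positivity)]
      have h5 : ‖((y 0 : ℝ) : ℂ) - ∑ r ∈ range k, T C r y‖ ≤ ∑ r ∈ range (k + 1),
          (if r < k then ‖F r y‖ else 1) := by
        rw [Finset.sum_range_succ, if_neg (lt_irrefl k)]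
        refine (norm_sub_le _ _).trans ?_
        rw [add_comm]
        refine add_le_add ?_ ?_
        · refine (norm_sum_le _ _).trans (Finset.sum_le_sum fun r hr => ?_)
          rw [if_pos (Finset.mem_range.1 hr)]
          exact hTF C r y
        · rw [Complex.norm_real, Real.norm_eq_abs]; exact abs_x y 0
      have h6 := sq_sum_le_card_mul_sum_sq (s := range (k + 1))
        (f := fun r => if r < k then ‖F r y‖ else 1)
      rw [card_range] at h6
      calc ‖((y 0 : ℝ) : ℂ) - ∑ r ∈ range k, T C r y‖ ^ 2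
          ≤ (∑ r ∈ range (k + 1), (if r < k then ‖F r y‖ else 1)) ^ 2 :=
            pow_le_pow_left₀ (norm_nonneg _) h5 2
        _ ≤ ((k + 1 : ℕ) : ℝ) * ∑ r ∈ range (k + 1), (if r < k then ‖F r y‖ else 1) ^ 2 := h6
        _ = ((k : ℝ) + 1) * (1 + ∑ r ∈ range k, ‖F r y‖ ^ 2) := by
            rw [Finset.sum_range_succ, if_neg (lt_irrefl k), one_pow, add_comm (1 : ℝ)]
            push_cast
            congr 2
            refine Finset.sum_congr rfl fun r hr => ?_
            rw [if_pos (Finset.mem_range.1 hr)]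
    · refine Eventually.of_forall fun y => ?_
      refine tendsto_const_nhds.congr' ?_
      obtain ⟨N, hN⟩ := exists_nat_ge (∑ r ∈ range k, ‖F r y‖)
      filter_upwards [eventually_ge_atTop N] with C hC
      congr 3
      refine Finset.sum_congr rfl fun r hr => ?_
      simp only [hT]
      rw [if_pos]
      calc ‖F r y‖ ≤ ∑ r ∈ range k, ‖F r y‖ :=
            Finset.single_le_sum (f := fun r => ‖F r y‖) (fun i _ => norm_nonneg _) hr
        _ ≤ N := hN
        _ ≤ C := by exact_mod_cast hC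
  have hev := hlim.eventually_lt_const (lt_of_le_of_lt h4 (show e < 2 * e by linarith))
  obtain ⟨C, hC, hC1⟩ := (hev.and (eventually_ge_atTop 1)).exists
  exact ⟨k * C, appr_of_bdd (by omega) (T C) θ (hTm C) (hTb C) (hTe C) hC.le⟩

/-- **No Furstenberg system of Liouville's function has almost all its components with discrete
spectrum** -/
theorem main (hG : T_GGW) (u : ℕ → I1)
    (hu : ∀ n, 0 < n → (u n : ℝ) = (-1) ^ ArithmeticFunction.cardFactors n)
    (κ : Measure X) [IsProbabilityMeasure κ] (hκ : QuasiGeneric u κ) :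
    ¬ ∀ᵐ x ∂κ, ∀ e : ℝ, 0 < e → ∃ m, Appr (comp κ x) m e := by
  intro hA
  have hlio : ∀ n, 0 < n → lio n = (u n : ℝ) := by
    intro n hn
    rw [hu n hn]
    unfold lio
    rw [if_neg (by omega)]
  have hS := qg_mp hκ
  -- the rate
  have hR : ∀ j : ℕ, ∃ m : ℕ, ∀ H : ℕ, 0 < H → ∫ x, DX m H x ∂κ ≤ 2 * (1 / (8 * (j + 1 : ℝ))) := by
    intro j
    set e : ℝ := 1 / (8 * (j + 1 : ℝ)) with he
    have he0 : 0 < e := by positivity
    have hmono : Monotone fun m : ℕ => {x | Appr (comp κ x) m e} := fun m m' h x hx =>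
      appr_mono h hx
    have hU : κ (⋃ m : ℕ, {x | Appr (comp κ x) m e}) = 1 := by
      have : (⋃ m : ℕ, {x | Appr (comp κ x) m e}) =ᵐ[κ] Set.univ := by
        rw [ae_eq_univ]
        refine measure_mono_null ?_ (ae_iff.1 hA)
        intro x hx hx2
        apply hx
        obtain ⟨m, hm⟩ := hx2 e he0
        exact Set.mem_iUnion.2 ⟨m, hm⟩
      rw [measure_congr this, measure_univ]
    have hT := tendsto_measure_iUnion_atTop (μ := κ) hmono
    rw [hU] at hT
    have hlt : (1 : ℝ≥0∞) - ENNReal.ofReal e < 1 :=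
      ENNReal.sub_lt_self ENNReal.one_ne_top one_ne_zero (by
        rw [Ne, ENNReal.ofReal_eq_zero, not_le]; exact he0)
    obtain ⟨m, hm⟩ := (hT.eventually_const_lt hlt).exists
    exact ⟨m, fun H hH => int_DX_comp hS he0 hm.le hH⟩
  choose R hR using hR
  obtain ⟨K, X₀, hK⟩ := hG fun j => R (j - 1)
  obtain ⟨N, hN, hF⟩ := hκ.2
  -- the windows
  have hlog : Tendsto (fun k => Real.log (N k)) atTop atTop :=
    Real.tendsto_log_atTop.comp (tendsto_natCast_atTop_atTop.comp hN)
  have hwin : ∀ j H : ℕ, 0 < H → ∀ᶠ k in atTop,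
      Base lio (R j) H (1 / ((j : ℝ) + 1)) (N k) := by
    intro j H hH
    have h1 := hF ⟨DX (R j) H, DX_cont (R j) H⟩
    simp only [ContinuousMap.coe_mk] at h1
    have h2 : ∫ x, DX (R j) H x ∂κ < 1 / (2 * ((j : ℝ) + 1)) := by
      refine lt_of_le_of_lt (hR j H hH) ?_
      have : 0 < 1 / ((j : ℝ) + 1) := by positivity
      have h3 : 2 * (1 / (8 * ((j : ℝ) + 1))) = 1 / 4 * (1 / ((j : ℝ) + 1)) := by
        field_simp; norm_num
      have h4 : 1 / (2 * ((j : ℝ) + 1)) = 1 / 2 * (1 / ((j : ℝ) + 1)) := by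
        field_simp
      rw [h3, h4]
      linarith
    filter_upwards [h1.eventually_lt_const h2, hlog.eventually_gt_atTop 0,
      hN.eventually_ge_atTop 3] with k hk hk0 hk3
    have h5 : lg (N k) (fun n => DX (R j) H (pt u n)) ≤
        1 / (2 * ((j : ℝ) + 1)) * Real.log (N k) := by
      unfold lavg at hk
      rw [div_lt_iff₀ hk0] at hk
      exact hk.le
    have h6 := base_of lio hlio (R j) H (N k) hk3 (e' := 1 / (4 * ((j : ℝ) + 1)))
      (by positivity) h5
    have h7 : 1 / (2 * ((j : ℝ) + 1)) + 2 * (1 / (4 * ((j : ℝ) + 1))) = 1 / ((j : ℝ) + 1) := by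
      field_simp; norm_num
    rwa [h7] at h6
  have hall : ∀ᶠ k in atTop, ∀ j ∈ range K, ∀ H ∈ Ioc 0 K,
      Base lio (R j) H (1 / ((j : ℝ) + 1)) (N k) := by
    rw [Filter.eventually_all_finset]
    intro j _
    rw [Filter.eventually_all_finset]
    intro H hH
    exact hwin j H (Finset.mem_Ioc.1 hH).1
  obtain ⟨k, hk, hk2⟩ := (hall.and (hN.eventually_ge_atTop X₀)).exists
  obtain ⟨j, H, hj1, hjK, hH1, hHK, hn⟩ := hK (N k) lio hk2 lio_Lio
  apply hn
  have := hk (j - 1) (Finset.mem_range.2 (by omega)) H (Finset.mem_Ioc.2 ⟨by omega, hHK⟩)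
  have h8 : ((j - 1 : ℕ) : ℝ) + 1 = j := by
    rw [Nat.cast_sub hj1]; push_cast; ring
  rwa [h8] at this

end Pool.Agent.H24.GG
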